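import Pool.Agent.Helper83.CQ.FPCOL

set_option autoImplicit false

/-!
# LAMCOL: cosets of `Lam i` are uniformly `(k+2)`-colourable
-/

namespace CQ
namespace LAMC

open Relation FPC

variable {F : Type} [Group F]

theorem fnrm_eq {I : Type} (ℓ : F → ℕ) (x : FP I F) : fnrm ℓ x = N ℓ (rl x) := by
  rw [← fnrm_pr ℓ (red_rl x), pr_rl]

theorem fnrm_one {I : Type} (ℓ : F → ℕ) : fnrm ℓ (1 : FP I F) = 0 := by
  have := fnrm_pr ℓ (l := ([] : List (Σ _ : I, F))) ⟨by simp, by simp⟩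
  rwa [pr_nil, N_nil] at this

theorem fnrm_mul {I : Type} {ℓ : F → ℕ} (hℓ : IsNorm ℓ) (x y : FP I F) :
    fnrm ℓ (x * y) ≤ fnrm ℓ x + fnrm ℓ y := by
  have h := fnrm_pr_le hℓ (rl x ++ rl y)
  rw [pr_append, pr_rl, pr_rl, N_append, ← fnrm_eq, ← fnrm_eq] at h
  exact h

theorem fnrm_fof {I : Type} {ℓ : F → ℕ} (hℓ : IsNorm ℓ) (i : I) (h : F) :
    fnrm ℓ (fof i h) ≤ ℓ h := by
  have h := fnrm_pr_le hℓ [(⟨i, h⟩ : Σ _ : I, F)]
  rw [pr_cons, pr_nil, mul_one, N_cons, N_nil, add_zero] at h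
  exact h

/-- the maps defining the retraction -/
noncomputable def rmap (n : ℕ) (i : ZMod n) (j : ZMod n) : F →* FP (ZMod n) F :=
  open Classical in
  if j = i - 1 ∨ j = i + 1 then fof j else 1

theorem natCast_ne {n : ℕ} (hn : 5 ≤ n) {m : ℕ} (hm : 0 < m) (hm' : m < 5) :
    ((m : ℕ) : ZMod n) ≠ 0 := by
  intro h
  rw [ZMod.natCast_eq_zero_iff] at h
  have := Nat.le_of_dvd hm h
  omega

theorem rmap_comm {n : ℕ} (hn : 5 ≤ n) (i j : ZMod n) (g h : F) :
    rmap n i j g * rmap n i (j + 1) h = rmap n i (j + 1) h * rmap n i j g := by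
  have h1 : (1 : ZMod n) ≠ 0 := by simpa using natCast_ne hn (m := 1) (by norm_num) (by norm_num)
  have h3 : (3 : ZMod n) ≠ 0 := by simpa using natCast_ne hn (m := 3) (by norm_num) (by norm_num)
  by_cases ha : j = i - 1 ∨ j = i + 1
  · by_cases hb : j + 1 = i - 1 ∨ j + 1 = i + 1
    · exfalso
      rcases ha with ha | ha <;> rcases hb with hb | hb
      · rw [ha] at hb
        apply h1
        have : (1 : ZMod n) = (i - 1 + 1) - (i - 1) := by ring
        rw [this, hb, sub_self]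
      · rw [ha] at hb
        apply h1
        have : (1 : ZMod n) = (i + 1) - (i - 1 + 1) := by ring
        rw [this, hb, sub_self]
      · rw [ha] at hb
        apply h3
        have : (3 : ZMod n) = (i + 1 + 1) - (i - 1) := by ring
        rw [this, hb, sub_self]
      · rw [ha] at hb
        apply h1
        have : (1 : ZMod n) = (i + 1 + 1) - (i + 1) := by ring
        rw [this, hb, sub_self]
    · have : (rmap n i (j + 1) : F →* FP (ZMod n) F) = 1 := if_neg hb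
      rw [this]; simp
  · have : (rmap n i j : F →* FP (ZMod n) F) = 1 := if_neg ha
    rw [this]; simp

/-- the retraction to the free product -/
noncomputable def ret {n : ℕ} (hn : 5 ≤ n) (i : ZMod n) : CP n F →* FP (ZMod n) F :=
  CP.lift (rmap n i) fun j g h => rmap_comm hn i j g h

theorem ret_ι {n : ℕ} (hn : 5 ≤ n) (i j : ZMod n) (h : F) :
    ret hn i (ι j h) = rmap n i j h := by simp [ret]

theorem mk_ret {n : ℕ} (hn : 5 ≤ n) (i : ZMod n) {u : CP n F} (hu : u ∈ Lam (F := F) i) :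
    CP.mk n F (ret hn i u) = u := by
  have h : Lam (F := F) i ≤ MonoidHom.eqLocus ((CP.mk n F).comp (ret hn i)) (MonoidHom.id _) := by
    unfold Lam
    rw [sup_le_iff]
    constructor
    · rintro _ ⟨h, rfl⟩
      show CP.mk n F (ret hn i (ι (i - 1) h)) = ι (i - 1) h
      rw [ret_ι, rmap, if_pos (Or.inl rfl)]
      rfl
    · rintro _ ⟨h, rfl⟩
      show CP.mk n F (ret hn i (ι (i + 1) h)) = ι (i + 1) h
      rw [ret_ι, rmap, if_pos (Or.inr rfl)]
      rfl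
  exact h hu

theorem gN_mk_le {n : ℕ} (ℓ : F → ℕ) (x : FP (ZMod n) F) : gN ℓ (CP.mk n F x) ≤ fnrm ℓ x := by
  apply Nat.sInf_le
  refine ⟨(rl x).map fun p => (p.1, p.2), ?_, ?_⟩
  · have h : CP.mk n F x = CP.mk n F (pr (rl x)) := by rw [pr_rl]
    rw [h, pr, map_list_prod, List.map_map, List.map_map]
    rfl
  · rw [fnrm_eq, List.map_map]
    rfl

theorem gN_mem {n : ℕ} (ℓ : F → ℕ) (w : CP n F) :
    ∃ l : List (ZMod n × F), (l.map fun p => ι p.1 p.2).prod = w ∧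
      (l.map fun p => ℓ p.2).sum = gN ℓ w := by
  apply Nat.sInf_mem (s := {s | ∃ l : List (ZMod n × F), (l.map fun p => ι p.1 p.2).prod = w ∧
    (l.map fun p => ℓ p.2).sum = s})
  obtain ⟨x, rfl⟩ := QuotientGroup.mk'_surjective (Subgroup.normalClosure (cycRel n F)) w
  refine ⟨_, (rl x).map fun p => (p.1, p.2), ?_, rfl⟩
  have h : CP.mk n F x = CP.mk n F (pr (rl x)) := by rw [pr_rl]
  show _ = CP.mk n F x
  rw [h, pr, map_list_prod, List.map_map, List.map_map]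
  rfl

theorem fnrm_ret_le {n : ℕ} {ℓ : F → ℕ} (hℓ : IsNorm ℓ) (hn : 5 ≤ n) (i : ZMod n) (w : CP n F) :
    fnrm ℓ (ret hn i w) ≤ gN ℓ w := by
  obtain ⟨l, h1, h2⟩ := gN_mem ℓ w
  rw [← h2, ← h1]
  clear h1 h2
  induction l with
  | nil => simp [fnrm_one]
  | cons p l ih =>
    simp only [List.map_cons, List.prod_cons, List.sum_cons, map_mul]
    have h1 := fnrm_mul hℓ (ret hn i (ι p.1 p.2)) (ret hn i (l.map fun p => ι p.1 p.2).prod)
    have h2 : fnrm ℓ (ret hn i (ι p.1 p.2)) ≤ ℓ p.2 := by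
      rw [ret_ι, rmap]
      split
      · exact fnrm_fof hℓ _ _
      · rw [MonoidHom.one_apply, fnrm_one]; omega
    omega

theorem gN_eq {n : ℕ} {ℓ : F → ℕ} (hℓ : IsNorm ℓ) (hn : 5 ≤ n) (i : ZMod n) {u : CP n F}
    (hu : u ∈ Lam (F := F) i) : gN ℓ u = fnrm ℓ (ret hn i u) := by
  apply le_antisymm
  · have := gN_mk_le ℓ (ret hn i u)
    rwa [mk_ret hn i hu] at this
  · exact fnrm_ret_le hℓ hn i u

end LAMC

open LAMC Relation in
theorem mod_LAMCOL : S_LAMCOL := by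
  intro n hn F _ ℓ k ΔF hℓ hcol
  obtain ⟨Δ, hΔ⟩ := mod_FPCOL (ZMod n) F ℓ k ΔF hℓ hcol
  refine ⟨Δ, fun i z R => ?_⟩
  obtain ⟨c, hc⟩ := hΔ R
  refine ⟨fun w => c (ret hn i (z⁻¹ * w)), ?_⟩
  intro x y hx hxy
  have key : ∀ a b : CP n F, z⁻¹ * a ∈ Lam (F := F) i → z⁻¹ * b ∈ Lam (F := F) i →
      nd (gN ℓ) a b = nd (fnrm ℓ) (ret hn i (z⁻¹ * a)) (ret hn i (z⁻¹ * b)) := by
    intro a b ha hb
    have e : a⁻¹ * b = (z⁻¹ * a)⁻¹ * (z⁻¹ * b) := by group
    have hm : (z⁻¹ * a)⁻¹ * (z⁻¹ * b) ∈ Lam (F := F) i := mul_mem (inv_mem ha) hb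
    rw [nd, nd, e, gN_eq hℓ hn i hm, map_mul, map_inv]
  have hy : z⁻¹ * y ∈ Lam (F := F) i := by
    rcases ReflTransGen.cases_tail hxy with h | ⟨w, -, h⟩
    · rw [h]; exact hx
    · exact h.2.1
  rw [key x y hx hy]
  apply hc _ _ trivial
  refine ReflTransGen.lift (fun w => ret hn i (z⁻¹ * w)) ?_ x y hxy
  rintro a b ⟨ha, hb, hd, hcc⟩
  exact ⟨trivial, trivial, by rw [← key a b ha hb]; exact hd, hcc⟩

end CQ
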