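import Pool.Agent.Helper28.CQ.Stmts

set_option autoImplicit false

/-!
# FPCOL: free products need two more colours
-/

namespace CQ
namespace FPC

open Relation

set_option linter.unusedSectionVars false

variable {I F : Type} [Group F]

/-- reduced lists of syllables -/
def Red (l : List (Σ _ : I, F)) : Prop := (∀ p ∈ l, p.2 ≠ 1) ∧ l.IsChain (fun a b => a.1 ≠ b.1)

/-- product of a list of syllables -/
noncomputable def pr (l : List (Σ _ : I, F)) : FP I F := (l.map fun p => fof p.1 p.2).prod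

/-- total length of a list of syllables -/
def N (ℓ : F → ℕ) (l : List (Σ _ : I, F)) : ℕ := (l.map fun p => ℓ p.2).sum

theorem pr_nil : pr ([] : List (Σ _ : I, F)) = 1 := rfl
theorem pr_cons (p : Σ _ : I, F) (l : List (Σ _ : I, F)) : pr (p :: l) = fof p.1 p.2 * pr l := by
  simp [pr]
theorem pr_append (a b : List (Σ _ : I, F)) : pr (a ++ b) = pr a * pr b := by simp [pr]

theorem N_nil (ℓ : F → ℕ) : N ℓ ([] : List (Σ _ : I, F)) = 0 := rfl
theorem N_cons (ℓ : F → ℕ) (p : Σ _ : I, F) (l : List (Σ _ : I, F)) :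
    N ℓ (p :: l) = ℓ p.2 + N ℓ l := by simp [N]
theorem N_append (ℓ : F → ℕ) (a b : List (Σ _ : I, F)) : N ℓ (a ++ b) = N ℓ a + N ℓ b := by
  simp [N]
theorem le_N {ℓ : F → ℕ} {p : Σ _ : I, F} {l : List (Σ _ : I, F)} (h : p ∈ l) :
    ℓ p.2 ≤ N ℓ l := List.single_le_sum (by simp) _ (List.mem_map.mpr ⟨p, h, rfl⟩)

open Classical in
theorem fnrm_pr (ℓ : F → ℕ) {l : List (Σ _ : I, F)} (h : Red l) : fnrm ℓ (pr l) = N ℓ l := by
  have e : Monoid.CoprodI.Word.equiv (M := fun _ : I => F) (pr l) =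
      (⟨l, h.1, h.2⟩ : Monoid.CoprodI.Word fun _ : I => F) := by
    have : pr l = Monoid.CoprodI.Word.equiv.symm
      (⟨l, h.1, h.2⟩ : Monoid.CoprodI.Word fun _ : I => F) := rfl
    rw [this, Equiv.apply_symm_apply]
  unfold fnrm
  rw [e]
  rfl

open Classical in
/-- the reduced list of an element -/
noncomputable def rl (x : FP I F) : List (Σ _ : I, F) :=
  (Monoid.CoprodI.Word.equiv (M := fun _ : I => F) x).toList

open Classical in
theorem red_rl (x : FP I F) : Red (rl x) :=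
  ⟨(Monoid.CoprodI.Word.equiv (M := fun _ : I => F) x).ne_one,
    (Monoid.CoprodI.Word.equiv (M := fun _ : I => F) x).chain_ne⟩

open Classical in
theorem pr_rl (x : FP I F) : pr (rl x) = x := by
  have : Monoid.CoprodI.Word.equiv.symm (Monoid.CoprodI.Word.equiv (M := fun _ : I => F) x) = x :=
    Equiv.symm_apply_apply _ _
  exact this

/-- inverse list -/
def il (l : List (Σ _ : I, F)) : List (Σ _ : I, F) := (l.map fun p => ⟨p.1, p.2⁻¹⟩).reverse

theorem il_cons (p : Σ _ : I, F) (l : List (Σ _ : I, F)) : il (p :: l) = il l ++ [⟨p.1, p.2⁻¹⟩] := by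
  simp [il]

theorem pr_il (l : List (Σ _ : I, F)) : pr (il l) = (pr l)⁻¹ := by
  induction l with
  | nil => simp [il, pr]
  | cons p l ih => rw [il_cons, pr_append, ih, pr_cons p l, mul_inv_rev, pr_cons, pr_nil]; simp

theorem N_il {ℓ : F → ℕ} (hℓ : IsNorm ℓ) (l : List (Σ _ : I, F)) : N ℓ (il l) = N ℓ l := by
  induction l with
  | nil => simp [il, N]
  | cons p l ih => rw [il_cons, N_append, ih, N_cons, N_cons, N_nil, hℓ.inv]; omega

theorem red_il {l : List (Σ _ : I, F)} (h : Red l) : Red (il l) := by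
  constructor
  · intro p hp
    simp only [il, List.mem_reverse, List.mem_map] at hp
    obtain ⟨q, hq, rfl⟩ := hp
    simpa using h.1 q hq
  · rw [il, List.isChain_reverse, List.isChain_map]
    exact h.2.imp fun a b hab => hab.symm

theorem red_cons {p : Σ _ : I, F} {l : List (Σ _ : I, F)} :
    Red (p :: l) ↔ p.2 ≠ 1 ∧ (∀ q ∈ l.head?, p.1 ≠ q.1) ∧ Red l := by
  unfold Red
  rw [List.isChain_cons]
  simp only [List.mem_cons, forall_eq_or_imp]
  tauto

theorem red_append {a b : List (Σ _ : I, F)} :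
    Red (a ++ b) ↔ Red a ∧ Red b ∧ (∀ p ∈ a.getLast?, ∀ q ∈ b.head?, p.1 ≠ q.1) := by
  unfold Red
  rw [List.isChain_append]
  simp only [List.mem_append]
  constructor
  · rintro ⟨h1, h2, h3, h4⟩
    exact ⟨⟨fun p hp => h1 p (Or.inl hp), h2⟩, ⟨fun p hp => h1 p (Or.inr hp), h3⟩, h4⟩
  · rintro ⟨⟨h1, h2⟩, ⟨h3, h4⟩, h5⟩
    exact ⟨fun p hp => hp.elim (h1 p) (h3 p), h2, h4, h5⟩

theorem getLast_il (l : List (Σ _ : I, F)) :
    (il l).getLast? = l.head?.map fun p => ⟨p.1, p.2⁻¹⟩ := by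
  cases l with
  | nil => simp [il]
  | cons p l => rw [il_cons]; simp

/-- the distance formula -/
theorem dist {ℓ : F → ℕ} (hℓ : IsNorm ℓ) : ∀ {U W : List (Σ _ : I, F)}, Red U → Red W →
    ∃ a, (∃ i g h u v, U = a ++ ⟨i, g⟩ :: u ∧ W = a ++ ⟨i, h⟩ :: v ∧
      nd (fnrm ℓ) (pr U) (pr W) = N ℓ u + ℓ (g⁻¹ * h) + N ℓ v) ∨
      (∃ u v, U = a ++ u ∧ W = a ++ v ∧ nd (fnrm ℓ) (pr U) (pr W) = N ℓ u + N ℓ v) := by
  intro U
  induction U with
  | nil =>
    intro W _ hW
    refine ⟨[], Or.inr ⟨[], W, rfl, rfl, ?_⟩⟩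
    rw [nd, pr_nil, inv_one, one_mul, fnrm_pr ℓ hW, N_nil, zero_add]
  | cons p U ih =>
    intro W hU hW
    cases W with
    | nil =>
      refine ⟨[], Or.inr ⟨p :: U, [], rfl, rfl, ?_⟩⟩
      rw [nd, pr_nil, mul_one, ← pr_il, fnrm_pr ℓ (red_il hU), N_il hℓ, N_nil, add_zero]
    | cons q W =>
      by_cases hpq : p = q
      · subst hpq
        have e : nd (fnrm ℓ) (pr (p :: U)) (pr (p :: W)) = nd (fnrm ℓ) (pr U) (pr W) := by
          rw [nd, nd, pr_cons, pr_cons]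
          congr 1
          group
        obtain ⟨a, h⟩ := ih (red_cons.mp hU).2.2 (red_cons.mp hW).2.2
        refine ⟨p :: a, ?_⟩
        rcases h with ⟨i, g, h, u, v, h1, h2, h3⟩ | ⟨u, v, h1, h2, h3⟩
        · exact Or.inl ⟨i, g, h, u, v, by rw [h1]; rfl, by rw [h2]; rfl, by rw [e, h3]⟩
        · exact Or.inr ⟨u, v, by rw [h1]; rfl, by rw [h2]; rfl, by rw [e, h3]⟩
      · obtain ⟨hp1, hp2, hp3⟩ := red_cons.mp hU
        obtain ⟨hq1, hq2, hq3⟩ := red_cons.mp hW
        by_cases hi : p.1 = q.1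
        · obtain ⟨i, g⟩ := p
          obtain ⟨j, h⟩ := q
          simp only at hi
          subst hi
          have hgh : g⁻¹ * h ≠ 1 := by
            intro hc
            apply hpq
            rw [inv_mul_eq_one] at hc
            rw [hc]
          refine ⟨[], Or.inl ⟨i, g, h, U, W, rfl, rfl, ?_⟩⟩
          have hred : Red (il U ++ (⟨i, g⁻¹ * h⟩ :: W)) := by
            rw [red_append, red_cons]
            refine ⟨red_il hp3, ⟨hgh, hq2, hq3⟩, ?_⟩
            intro r hr s hs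
            rw [getLast_il] at hr
            simp only [List.head?_cons, Option.mem_def, Option.some.injEq] at hs
            subst hs
            simp only [Option.mem_def, Option.map_eq_some_iff] at hr
            obtain ⟨r', hr', rfl⟩ := hr
            exact (hp2 r' hr').symm
          have : (pr (⟨i, g⟩ :: U))⁻¹ * pr (⟨i, h⟩ :: W) = pr (il U ++ (⟨i, g⁻¹ * h⟩ :: W)) := by
            rw [pr_append, pr_cons, pr_cons, pr_cons, pr_il]
            simp only [map_mul, map_inv]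
            group
          rw [nd, this, fnrm_pr ℓ hred, N_append, N_il hℓ, N_cons]
          ring
        · refine ⟨[], Or.inr ⟨p :: U, q :: W, rfl, rfl, ?_⟩⟩
          have hred : Red (il (p :: U) ++ (q :: W)) := by
            rw [red_append]
            refine ⟨red_il hU, hW, ?_⟩
            intro r hr s hs
            rw [getLast_il] at hr
            simp only [List.head?_cons, Option.mem_def, Option.some.injEq] at hs
            subst hs
            simp only [List.head?_cons, Option.map_some, Option.mem_def, Option.some.injEq] at hr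
            rw [← hr]
            exact hi
          rw [nd, ← pr_il, ← pr_append, fnrm_pr ℓ hred, N_append, N_il hℓ]

/-- norm of an arbitrary product of syllables -/
theorem fnrm_pr_le {ℓ : F → ℕ} (hℓ : IsNorm ℓ) (l : List (Σ _ : I, F)) :
    fnrm ℓ (pr l) ≤ N ℓ l := by
  induction l with
  | nil => rw [fnrm_pr ℓ ⟨by simp, by simp⟩]
  | cons p l ih =>
    rw [pr_cons, N_cons]
    by_cases hp : p.2 = 1
    · rw [hp, map_one, one_mul]; omega
    · have hU : Red [(⟨p.1, p.2⁻¹⟩ : Σ _ : I, F)] := by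
        rw [red_cons]
        exact ⟨by simpa using hp, by simp, by simp, by simp⟩
      have hW := red_rl (pr l)
      have hN : N ℓ (rl (pr l)) = fnrm ℓ (pr l) := by
        rw [← fnrm_pr ℓ hW, pr_rl]
      have e : fof p.1 p.2 * pr l = (pr [(⟨p.1, p.2⁻¹⟩ : Σ _ : I, F)])⁻¹ * pr (rl (pr l)) := by
        rw [pr_rl, pr_cons, pr_nil]; simp
      rw [e]
      have hd := dist hℓ hU hW
      unfold nd at hd
      obtain ⟨a, ⟨i, g, h, u, v, h1, h2, h3⟩ | ⟨u, v, h1, h2, h3⟩⟩ := hd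
      · rw [h3]
        have hN1 := congrArg (N ℓ) h1
        have hN2 := congrArg (N ℓ) h2
        rw [hN] at hN2
        simp only [N_append, N_cons, N_nil] at hN1 hN2
        have := hℓ.mul_le g⁻¹ h
        rw [hℓ.inv] at this
        rw [hℓ.inv] at hN1
        omega
      · rw [h3]
        have hN1 := congrArg (N ℓ) h1
        have hN2 := congrArg (N ℓ) h2
        rw [hN] at hN2
        simp only [N_append, N_cons, N_nil] at hN1 hN2
        rw [hℓ.inv] at hN1
        omega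

/-- decomposition of a list: `b` is empty or ends with a big syllable, `t` has only small ones -/
def Dec (ℓ : F → ℕ) (ρ : ℕ) (l b t : List (Σ _ : I, F)) : Prop :=
  l = b ++ t ∧ (∀ p ∈ t, ℓ p.2 < ρ) ∧ ∀ b' s, b = b' ++ [s] → ρ ≤ ℓ s.2

theorem exists_dec (ℓ : F → ℕ) (ρ : ℕ) (l : List (Σ _ : I, F)) : ∃ b t, Dec ℓ ρ l b t := by
  induction l using List.reverseRecOn with
  | nil => exact ⟨[], [], rfl, by simp, by simp⟩
  | append_singleton l s ih =>
    by_cases hs : ρ ≤ ℓ s.2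
    · refine ⟨l ++ [s], [], by simp, by simp, ?_⟩
      intro b' s' h
      obtain ⟨_, h2⟩ := List.append_inj' h rfl
      simp only [List.cons.injEq, and_true] at h2
      rw [← h2]
      exact hs
    · obtain ⟨b, t, h1, h2, h3⟩ := ih
      refine ⟨b, t ++ [s], by rw [h1, List.append_assoc], ?_, h3⟩
      intro p hp
      rw [List.mem_append, List.mem_singleton] at hp
      rcases hp with hp | rfl
      · exact h2 p hp
      · omega

theorem dec_append {ℓ : F → ℕ} {ρ : ℕ} {a u b t : List (Σ _ : I, F)} (h : Dec ℓ ρ (a ++ u) b t) :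
    (∃ r, Dec ℓ ρ a b r ∧ t = r ++ u) ∨ (∃ c s, b = a ++ (c ++ [s]) ∧ u = c ++ [s] ++ t ∧
      ρ ≤ ℓ s.2) := by
  obtain ⟨h1, h2, h3⟩ := h
  rw [List.append_eq_append_iff] at h1
  rcases h1 with ⟨c, hc1, hc2⟩ | ⟨c, hc1, hc2⟩
  · rcases List.eq_nil_or_concat' c with rfl | ⟨c', s, rfl⟩
    · left
      refine ⟨[], ⟨by simpa using hc1.symm, by simp, h3⟩, by simpa using hc2.symm⟩
    · right
      exact ⟨c', s, hc1, hc2, h3 (a ++ c') s (by rw [hc1, List.append_assoc])⟩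
  · left
    refine ⟨c, ⟨hc1, fun p hp => h2 p (by rw [hc2]; exact List.mem_append_left _ hp), h3⟩, hc2⟩

theorem dec_unique {ℓ : F → ℕ} {ρ : ℕ} {l b t b' t' : List (Σ _ : I, F)} (h : Dec ℓ ρ l b t)
    (h' : Dec ℓ ρ l b' t') : b = b' ∧ t = t' := by
  have key : ∀ {b t b' t' : List (Σ _ : I, F)}, Dec ℓ ρ l b t → Dec ℓ ρ l b' t' →
      ∀ c, b' = b ++ c → t = c ++ t' → c = [] := by
    intro b t b' t' h h' c h1 h2
    rcases List.eq_nil_or_concat' c with rfl | ⟨c', s, rfl⟩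
    · rfl
    · exfalso
      have h3 := h'.2.2 (b ++ c') s (by rw [h1, List.append_assoc])
      have h4 := h.2.1 s (by rw [h2]; simp)
      omega
  have e : b ++ t = b' ++ t' := h.1.symm.trans h'.1
  rw [List.append_eq_append_iff] at e
  rcases e with ⟨c, hc1, hc2⟩ | ⟨c, hc1, hc2⟩
  · have := key h h' c hc1 hc2
    subst this
    exact ⟨by simpa using hc1.symm, by simpa using hc2⟩
  · have := key h' h c hc1 hc2
    subst this
    exact ⟨by simpa using hc1, by simpa using hc2.symm⟩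

/-- shortest prefix of length at least `H` -/
def anc (ℓ : F → ℕ) : ℕ → List (Σ _ : I, F) → List (Σ _ : I, F)
  | _, [] => []
  | H, s :: t => if H = 0 then [] else s :: anc ℓ (H - ℓ s.2) t

theorem anc_append {ℓ : F → ℕ} : ∀ (r : List (Σ _ : I, F)) (H : ℕ) (u : List (Σ _ : I, F)),
    H ≤ N ℓ r → anc ℓ H (r ++ u) = anc ℓ H r := by
  intro r
  induction r with
  | nil =>
    intro H u hH
    rw [N_nil] at hH
    have : H = 0 := by omega
    subst this
    cases u <;> simp [anc]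
  | cons s r ih =>
    intro H u hH
    rw [N_cons] at hH
    rw [List.cons_append, anc, anc]
    by_cases h0 : H = 0
    · simp [h0]
    · rw [if_neg h0, if_neg h0, ih _ _ (by omega)]

theorem anc_spec {ℓ : F → ℕ} : ∀ (r : List (Σ _ : I, F)) (H : ℕ), H ≤ N ℓ r →
    ∃ c, r = anc ℓ H r ++ c ∧ N ℓ c + H ≤ N ℓ r := by
  intro r
  induction r with
  | nil =>
    intro H hH
    rw [N_nil] at hH
    exact ⟨[], by simp [anc], by rw [N_nil]; omega⟩
  | cons s r ih =>
    intro H hH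
    rw [anc]
    by_cases h0 : H = 0
    · exact ⟨s :: r, by simp [h0], by omega⟩
    · rw [N_cons] at hH ⊢
      obtain ⟨c, h1, h2⟩ := ih (H - ℓ s.2) (by omega)
      refine ⟨c, ?_, by omega⟩
      rw [if_neg h0, List.cons_append, ← h1]

/-- upper bound for the distance of two elements with a common prefix -/
theorem nd_le {ℓ : F → ℕ} (hℓ : IsNorm ℓ) (a : List (Σ _ : I, F)) (u v : List (Σ _ : I, F)) :
    nd (fnrm ℓ) (pr (a ++ u)) (pr (a ++ v)) ≤ N ℓ u + N ℓ v := by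
  have : (pr (a ++ u))⁻¹ * pr (a ++ v) = pr (il u ++ v) := by
    rw [pr_append, pr_append, pr_append, pr_il]; group
  rw [nd, this, ← N_il hℓ u, ← N_append]
  exact fnrm_pr_le hℓ _

theorem nd_le' {ℓ : F → ℕ} (hℓ : IsNorm ℓ) (a : List (Σ _ : I, F)) (i : I) (g h : F)
    (u v : List (Σ _ : I, F)) :
    nd (fnrm ℓ) (pr (a ++ [⟨i, g⟩] ++ u)) (pr (a ++ [⟨i, h⟩] ++ v)) ≤
      N ℓ u + ℓ (g⁻¹ * h) + N ℓ v := by
  have : (pr (a ++ [⟨i, g⟩] ++ u))⁻¹ * pr (a ++ [⟨i, h⟩] ++ v) =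
      pr (il u ++ [⟨i, g⁻¹ * h⟩] ++ v) := by
    simp only [pr_append, pr_il, pr_cons, pr_nil, map_mul, map_inv]
    group
  have h2 : N ℓ (il u ++ [⟨i, g⁻¹ * h⟩] ++ v) = N ℓ u + ℓ (g⁻¹ * h) + N ℓ v := by
    rw [N_append, N_append, N_il hℓ, N_cons, N_nil]; rfl
  rw [nd, this, ← h2]
  exact fnrm_pr_le hℓ _

/-- step of the first kind -/
theorem step1 {ℓ : F → ℕ} (hℓ : IsNorm ℓ) {R R1 ρ : ℕ} (hR1 : R1 = R + 1) (hρ : ρ = R1 + R)
    {U W b t c t' : List (Σ _ : I, F)} {s s' : Σ _ : I, F} (hU : Red U) (hW : Red W)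
    (h : Dec ℓ ρ U (b ++ [s]) t) (h' : Dec ℓ ρ W (c ++ [s']) t') (ht : N ℓ t < R1)
    (ht' : N ℓ t' < R1) (hd : nd (fnrm ℓ) (pr U) (pr W) ≤ R) :
    b = c ∧ s.1 = s'.1 ∧ ℓ (s.2⁻¹ * s'.2) ≤ R := by
  obtain ⟨a, ⟨i, g, g', u, v, h1, h2, h3⟩ | ⟨u, v, h1, h2, h3⟩⟩ := dist hℓ hU hW
  · rw [h3] at hd
    have hs := h.2.2 b s rfl
    have hs' := h'.2.2 c s' rfl
    rw [h1] at h
    rw [h2] at h'
    -- dichotomy for each of the two
    have key : ∀ {g : F} {u b t : List (Σ _ : I, F)} {s : Σ _ : I, F},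
        Dec ℓ ρ (a ++ ⟨i, g⟩ :: u) (b ++ [s]) t → N ℓ u ≤ R → N ℓ t < R1 →
        (∃ r, Dec ℓ ρ a (b ++ [s]) r ∧ ℓ g < R1) ∨ (b = a ∧ s = ⟨i, g⟩) := by
      intro g u b t s h hu ht
      rcases dec_append h with ⟨r, hr1, hr2⟩ | ⟨d, e, hd1, hd2, hd3⟩
      · left
        refine ⟨r, hr1, ?_⟩
        rw [hr2, N_append, N_cons] at ht
        simp only at ht
        omega
      · right
        cases d with
        | nil =>
          simp only [List.nil_append, List.cons_append, List.cons.injEq] at hd2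
          obtain ⟨hd2, -⟩ := hd2
          rw [List.nil_append] at hd1
          obtain ⟨h5, h6⟩ := List.append_inj' hd1 rfl
          simp only [List.cons.injEq, and_true] at h6
          exact ⟨h5, by rw [h6, ← hd2]⟩
        | cons x d =>
          exfalso
          simp only [List.cons_append, List.cons.injEq] at hd2
          have : ℓ e.2 ≤ N ℓ u := le_N (by rw [hd2.2]; simp)
          omega
    rcases key h (by omega) ht with ⟨r, hr, hg⟩ | ⟨rfl, rfl⟩
    · rcases key h' (by omega) ht' with ⟨r', hr', hg'⟩ | ⟨rfl, rfl⟩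
      · obtain ⟨h4, -⟩ := dec_unique hr hr'
        obtain ⟨h5, h6⟩ := List.append_inj' h4 rfl
        simp only [List.cons.injEq, and_true] at h6
        clear h4
        subst h6
        exact ⟨h5, rfl, by rw [inv_mul_cancel, (hℓ.eq_zero 1).mpr rfl]; omega⟩
      · exfalso
        have := hℓ.mul_le g (g⁻¹ * g')
        rw [mul_inv_cancel_left] at this
        simp only at hs'
        omega
    · rcases key h' (by omega) ht' with ⟨r', hr', hg'⟩ | ⟨rfl, rfl⟩
      · exfalso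
        have := hℓ.mul_le g' (g'⁻¹ * g)
        rw [mul_inv_cancel_left] at this
        have h7 := hℓ.inv (g'⁻¹ * g)
        rw [mul_inv_rev, inv_inv] at h7
        simp only at hs
        omega
      · exact ⟨rfl, rfl, by simp only; omega⟩
  · rw [h3] at hd
    rw [h1] at h
    rw [h2] at h'
    have key : ∀ {u b t : List (Σ _ : I, F)}, Dec ℓ ρ (a ++ u) b t → N ℓ u ≤ R →
        ∃ r, Dec ℓ ρ a b r := by
      intro u b t h hu
      rcases dec_append h with ⟨r, hr1, hr2⟩ | ⟨d, e, hd1, hd2, hd3⟩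
      · exact ⟨r, hr1⟩
      · exfalso
        have : ℓ e.2 ≤ N ℓ u := le_N (by rw [hd2]; simp)
        omega
    obtain ⟨r, hr⟩ := key h (by omega)
    obtain ⟨r', hr'⟩ := key h' (by omega)
    obtain ⟨h4, -⟩ := dec_unique hr hr'
    obtain ⟨h5, h6⟩ := List.append_inj' h4 rfl
    simp only [List.cons.injEq, and_true] at h6
    clear h4
    subst h6
    exact ⟨h5, rfl, by rw [inv_mul_cancel, (hℓ.eq_zero 1).mpr rfl]; omega⟩

/-- step of the second kind -/
theorem step2 {ℓ : F → ℕ} (hℓ : IsNorm ℓ) {R R1 ρ : ℕ} (hR1 : R1 = R + 1) (hρ : ρ = R1 + R)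
    {U W b t c t' : List (Σ _ : I, F)} (hU : Red U) (hW : Red W)
    (h : Dec ℓ ρ U b t) (h' : Dec ℓ ρ W c t') (ht : b ≠ [] → R1 ≤ N ℓ t)
    (ht' : c ≠ [] → R1 ≤ N ℓ t') (hpar : (N ℓ t / R1) % 2 = (N ℓ t' / R1) % 2)
    (hd : nd (fnrm ℓ) (pr U) (pr W) ≤ R) :
    b = c ∧ N ℓ t / R1 = N ℓ t' / R1 ∧
      ∀ H, H ≤ (N ℓ t / R1) * R1 - (R + ρ) → anc ℓ H t = anc ℓ H t' := by
  have hquot : N ℓ t ≤ N ℓ t' + R → N ℓ t' ≤ N ℓ t + R → N ℓ t / R1 = N ℓ t' / R1 := by
    intro h1 h2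
    have hpos : 0 < R1 := by omega
    have e1 : N ℓ t / R1 ≤ N ℓ t' / R1 + 1 := by
      have := Nat.div_le_div_right (c := R1) (show N ℓ t ≤ N ℓ t' + R1 by omega)
      rwa [Nat.add_div_right _ hpos] at this
    have e2 : N ℓ t' / R1 ≤ N ℓ t / R1 + 1 := by
      have := Nat.div_le_div_right (c := R1) (show N ℓ t' ≤ N ℓ t + R1 by omega)
      rwa [Nat.add_div_right _ hpos] at this
    omega
  have hdiv : (N ℓ t / R1) * R1 ≤ N ℓ t := Nat.div_mul_le_self _ _
  obtain ⟨a, ⟨i, g, g', u, v, h1, h2, h3⟩ | ⟨u, v, h1, h2, h3⟩⟩ := dist hℓ hU hW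
  · rw [h3] at hd
    rw [h1] at h
    rw [h2] at h'
    have key : ∀ {g : F} {u b t : List (Σ _ : I, F)}, Dec ℓ ρ (a ++ ⟨i, g⟩ :: u) b t →
        N ℓ u ≤ R → (b ≠ [] → R1 ≤ N ℓ t) → ∃ r, Dec ℓ ρ a b r ∧ t = r ++ ⟨i, g⟩ :: u := by
      intro g u b t h hu ht
      rcases dec_append h with ⟨r, hr1, hr2⟩ | ⟨d, e, hd1, hd2, hd3⟩
      · exact ⟨r, hr1, hr2⟩
      · exfalso
        have hb : b ≠ [] := by
          intro hb
          rw [hb] at hd1
          simp at hd1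
        have h4 := ht hb
        have h5 : N ℓ t ≤ N ℓ u := by
          cases d with
          | nil =>
            simp only [List.nil_append, List.cons_append, List.cons.injEq] at hd2
            rw [hd2.2]
          | cons x d =>
            simp only [List.cons_append, List.cons.injEq] at hd2
            rw [hd2.2]
            simp only [N_append, N_cons, List.append_assoc]
            omega
        omega
    obtain ⟨r, hr, htr⟩ := key h (by omega) ht
    obtain ⟨r', hr', htr'⟩ := key h' (by omega) ht'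
    obtain ⟨h5, h6⟩ := dec_unique hr hr'
    subst h6
    have hg : ℓ g < ρ := h.2.1 ⟨i, g⟩ (by rw [htr]; simp)
    have e1 : N ℓ t = N ℓ r + (ℓ g + N ℓ u) := by rw [htr, N_append, N_cons]
    have e2 : N ℓ t' = N ℓ r + (ℓ g' + N ℓ v) := by rw [htr', N_append, N_cons]
    have e3 := hℓ.mul_le g (g⁻¹ * g')
    rw [mul_inv_cancel_left] at e3
    have e4 := hℓ.mul_le g' (g'⁻¹ * g)
    rw [mul_inv_cancel_left] at e4
    have h7 := hℓ.inv (g'⁻¹ * g)
    rw [mul_inv_rev, inv_inv] at h7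
    refine ⟨h5, hquot (by omega) (by omega), ?_⟩
    intro H hH
    rw [htr, htr', anc_append r H _ (by omega), anc_append r H _ (by omega)]
  · rw [h3] at hd
    rw [h1] at h
    rw [h2] at h'
    have key : ∀ {u b t : List (Σ _ : I, F)}, Dec ℓ ρ (a ++ u) b t →
        N ℓ u ≤ R → ∃ r, Dec ℓ ρ a b r ∧ t = r ++ u := by
      intro u b t h hu
      rcases dec_append h with ⟨r, hr1, hr2⟩ | ⟨d, e, hd1, hd2, hd3⟩
      · exact ⟨r, hr1, hr2⟩
      · exfalso
        have : ℓ e.2 ≤ N ℓ u := le_N (by rw [hd2]; simp)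
        omega
    obtain ⟨r, hr, htr⟩ := key h (by omega)
    obtain ⟨r', hr', htr'⟩ := key h' (by omega)
    obtain ⟨h5, h6⟩ := dec_unique hr hr'
    subst h6
    have e1 : N ℓ t = N ℓ r + N ℓ u := by rw [htr, N_append]
    have e2 : N ℓ t' = N ℓ r + N ℓ v := by rw [htr', N_append]
    refine ⟨h5, hquot (by omega) (by omega), ?_⟩
    intro H hH
    rw [htr, htr', anc_append r H _ (by omega), anc_append r H _ (by omega)]

open Classical in
/-- colours of reduced lists -/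
noncomputable def colr (ℓ : F → ℕ) (ρ R1 k : ℕ) (χ : F → Fin k) (l : List (Σ _ : I, F)) : ℕ :=
  let b := (exists_dec ℓ ρ l).choose
  let t := (exists_dec ℓ ρ l).choose_spec.choose
  if h : N ℓ t < R1 ∧ ∃ b' s, b = b' ++ [s] then χ h.2.choose_spec.choose.2
  else k + (N ℓ t / R1) % 2

theorem colr_lt (ℓ : F → ℕ) (ρ R1 k : ℕ) (χ : F → Fin k) (l : List (Σ _ : I, F)) :
    colr ℓ ρ R1 k χ l < k + 2 := by
  unfold colr
  dsimp only
  split
  · next h => exact lt_of_lt_of_le (χ _).2 (by omega)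
  · omega

/-- the two kinds -/
theorem colr_spec (ℓ : F → ℕ) (ρ R1 k : ℕ) (χ : F → Fin k) (l : List (Σ _ : I, F)) :
    (∃ b s t, Dec ℓ ρ l (b ++ [s]) t ∧ N ℓ t < R1 ∧ colr ℓ ρ R1 k χ l = χ s.2) ∨
    (∃ b t, Dec ℓ ρ l b t ∧ (b ≠ [] → R1 ≤ N ℓ t) ∧
      colr ℓ ρ R1 k χ l = k + (N ℓ t / R1) % 2) := by
  have hd := (exists_dec ℓ ρ l).choose_spec.choose_spec
  by_cases h : N ℓ (exists_dec ℓ ρ l).choose_spec.choose < R1 ∧
      ∃ b' s, (exists_dec ℓ ρ l).choose = b' ++ [s]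
  · left
    refine ⟨h.2.choose, h.2.choose_spec.choose, (exists_dec ℓ ρ l).choose_spec.choose, ?_, h.1, ?_⟩
    · rw [← h.2.choose_spec.choose_spec]
      exact hd
    · unfold colr
      dsimp only
      rw [dif_pos h]
  · right
    refine ⟨_, _, hd, ?_, ?_⟩
    · intro hb
      by_contra hc
      apply h
      refine ⟨not_le.mp hc, ?_⟩
      rcases List.eq_nil_or_concat' (exists_dec ℓ ρ l).choose with h0 | h0
      · exact absurd h0 hb
      · exact h0
    · unfold colr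
      dsimp only
      rw [dif_neg h]

end FPC

open FPC Relation in
theorem mod_FPCOL : S_FPCOL := by
  intro I F _ ℓ k ΔF hℓ hcol
  refine ⟨fun R => ΔF R + 2 * (R + 1) + 2 * ((R + 1) + R + ((R + 1) + R)), fun R => ?_⟩
  obtain ⟨χ, hχ⟩ := hcol R
  obtain ⟨R1, hR1⟩ : ∃ R1, R1 = R + 1 := ⟨_, rfl⟩
  obtain ⟨ρ, hρ⟩ : ∃ ρ, ρ = R1 + R := ⟨_, rfl⟩
  refine ⟨fun x => ⟨colr ℓ ρ R1 k χ (rl x), colr_lt _ _ _ _ _ _⟩, ?_⟩
  intro x y _ hxy
  have hcolr : ∀ a b : FP I F, (⟨colr ℓ ρ R1 k χ (rl a), colr_lt _ _ _ _ _ _⟩ : Fin (k + 2)) =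
      ⟨colr ℓ ρ R1 k χ (rl b), colr_lt _ _ _ _ _ _⟩ →
      colr ℓ ρ R1 k χ (rl a) = colr ℓ ρ R1 k χ (rl b) := by
    intro a b h
    simpa using h
  rcases colr_spec ℓ ρ R1 k χ (rl x) with ⟨b, s, t, h1, h2, h3⟩ | ⟨b, t, h1, h2, h3⟩
  · -- first kind
    have key : ∃ g t', Dec ℓ ρ (rl y) (b ++ [⟨s.1, g⟩]) t' ∧ N ℓ t' < R1 ∧
        colr ℓ ρ R1 k χ (rl y) = χ g ∧
        ReflTransGen (fun a b => a ∈ Set.univ ∧ b ∈ Set.univ ∧ nd ℓ a b ≤ R ∧ χ a = χ b) s.2 g := by
      induction hxy with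
      | refl => exact ⟨s.2, t, h1, h2, h3, ReflTransGen.refl⟩
      | @tail y z hy hyz ih =>
        obtain ⟨g, t', e1, e2, e3, e4⟩ := ih
        obtain ⟨-, -, hd, hc⟩ := hyz
        have hc := hcolr _ _ hc
        rcases colr_spec ℓ ρ R1 k χ (rl z) with ⟨c, s', t'', f1, f2, f3⟩ | ⟨c, t'', f1, f2, f3⟩
        · have hd' : nd (fnrm ℓ) (pr (rl y)) (pr (rl z)) ≤ R := by rw [pr_rl, pr_rl]; exact hd
          obtain ⟨g1, g2, g3⟩ := step1 hℓ hR1 hρ (red_rl y) (red_rl z) e1 f1 e2 f2 hd'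
          simp only at g2 g3
          subst g1
          have hs' : s' = ⟨s.1, s'.2⟩ := by rw [g2]
          refine ⟨s'.2, t'', by rw [← hs']; exact f1, f2, f3, e4.tail ⟨trivial, trivial, g3, ?_⟩⟩
          have : (χ g : ℕ) = χ s'.2 := by rw [← e3, hc, f3]
          exact Fin.ext this
        · exfalso
          rw [e3, f3] at hc
          have := (χ g).2
          omega
    obtain ⟨g, t', e1, e2, -, e4⟩ := key
    have h4 := hχ s.2 g trivial e4
    have h5 := nd_le' hℓ b s.1 s.2 g t t'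
    have e5 : (⟨s.1, s.2⟩ : Σ _ : I, F) = s := rfl
    rw [e5, ← h1.1, ← e1.1, pr_rl, pr_rl] at h5
    unfold nd at h4 h5 ⊢
    dsimp only
    omega
  · -- second kind
    have key : ∃ t', Dec ℓ ρ (rl y) b t' ∧ (b ≠ [] → R1 ≤ N ℓ t') ∧
        colr ℓ ρ R1 k χ (rl y) = k + (N ℓ t' / R1) % 2 ∧ N ℓ t / R1 = N ℓ t' / R1 ∧
        ∀ H, H ≤ (N ℓ t / R1) * R1 - (R + ρ) → anc ℓ H t = anc ℓ H t' := by
      induction hxy with
      | refl => exact ⟨t, h1, h2, h3, rfl, fun H _ => rfl⟩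
      | @tail y z hy hyz ih =>
        obtain ⟨t', e1, e2, e3, e4, e5⟩ := ih
        obtain ⟨-, -, hd, hc⟩ := hyz
        have hc := hcolr _ _ hc
        rcases colr_spec ℓ ρ R1 k χ (rl z) with ⟨c, s', t'', f1, f2, f3⟩ | ⟨c, t'', f1, f2, f3⟩
        · exfalso
          rw [e3, f3] at hc
          have := (χ s'.2).2
          omega
        · have hd' : nd (fnrm ℓ) (pr (rl y)) (pr (rl z)) ≤ R := by rw [pr_rl, pr_rl]; exact hd
          obtain ⟨g1, g2, g3⟩ := step2 hℓ hR1 hρ (red_rl y) (red_rl z) e1 f1 e2 f2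
            (by rw [e3, f3] at hc; omega) hd'
          subst g1
          refine ⟨t'', f1, f2, f3, by rw [e4, g2], fun H hH => ?_⟩
          rw [e5 H hH, g3 H (by rw [← e4]; exact hH)]
    obtain ⟨t', e1, -, -, e4, e5⟩ := key
    obtain ⟨H, hH⟩ : ∃ H, H = (N ℓ t / R1) * R1 - (R + ρ) := ⟨_, rfl⟩
    have e6 := e5 H hH.le
    have hdiv : (N ℓ t / R1) * R1 ≤ N ℓ t := Nat.div_mul_le_self _ _
    have hdiv' : (N ℓ t' / R1) * R1 ≤ N ℓ t' := Nat.div_mul_le_self _ _
    rw [← e4] at hdiv'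
    have hlt : N ℓ t < (N ℓ t / R1) * R1 + R1 := by
      have := Nat.lt_div_mul_add (a := N ℓ t) (b := R1) (by omega)
      omega
    have hlt' : N ℓ t' < (N ℓ t / R1) * R1 + R1 := by
      have := Nat.lt_div_mul_add (a := N ℓ t') (b := R1) (by omega)
      rw [← e4] at this
      omega
    obtain ⟨c, g1, g2⟩ := anc_spec (ℓ := ℓ) t H (by omega)
    obtain ⟨c', g3, g4⟩ := anc_spec (ℓ := ℓ) t' H (by omega)
    have h5 := nd_le hℓ (b ++ anc ℓ H t) c c'
    have hx : b ++ anc ℓ H t ++ c = rl x := by rw [h1.1, List.append_assoc, ← g1]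
    have hy : b ++ anc ℓ H t ++ c' = rl y := by rw [e1.1, List.append_assoc, e6, ← g3]
    rw [hx, hy, pr_rl, pr_rl] at h5
    unfold nd at h5 ⊢
    dsimp only
    omega

end CQ
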