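import Pool.Agent.Helper28.CQ.Stmts

set_option autoImplicit false

/-!
# WALLS: properties of tree-walls
-/

namespace CQ
namespace WLS

variable {n : ℕ} {F : Type} [Group F] {ℓ : F → ℕ}

theorem cast_ne {n : ℕ} (hn : 5 ≤ n) {m : ℕ} (hm : 0 < m) (hm' : m < 5) :
    ((m : ℕ) : ZMod n) ≠ 0 := by
  intro h
  rw [ZMod.natCast_eq_zero_iff] at h
  have := Nat.le_of_dvd hm h
  omega

theorem one_ne (hn : 5 ≤ n) : (1 : ZMod n) ≠ 0 := by
  simpa using cast_ne hn (m := 1) (by norm_num) (by norm_num)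
theorem two_ne (hn : 5 ≤ n) : (2 : ZMod n) ≠ 0 := by
  simpa using cast_ne hn (m := 2) (by norm_num) (by norm_num)
theorem three_ne (hn : 5 ≤ n) : (3 : ZMod n) ≠ 0 := by
  simpa using cast_ne hn (m := 3) (by norm_num) (by norm_num)
theorem four_ne (hn : 5 ≤ n) : (4 : ZMod n) ≠ 0 := by
  simpa using cast_ne hn (m := 4) (by norm_num) (by norm_num)

/-! ## the syllable norm -/

theorem exists_list (w : CP n F) :
    ∃ l : List (ZMod n × F), (l.map fun p => ι p.1 p.2).prod = w := by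
  induction w using CP.induction_right with
  | h1 => exact ⟨[], rfl⟩
  | hs w i s ih =>
    obtain ⟨l, hl⟩ := ih
    exact ⟨l ++ [(i, s)], by simp [hl]⟩

theorem gN_le (ℓ : F → ℕ) (l : List (ZMod n × F)) :
    gN ℓ ((l.map fun p => ι p.1 p.2).prod : CP n F) ≤ (l.map fun p => ℓ p.2).sum :=
  Nat.sInf_le ⟨l, rfl, rfl⟩

theorem gN_mem (ℓ : F → ℕ) (w : CP n F) :
    ∃ l : List (ZMod n × F), (l.map fun p => ι p.1 p.2).prod = w ∧
      (l.map fun p => ℓ p.2).sum = gN ℓ w := by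
  apply Nat.sInf_mem (s := {s | ∃ l : List (ZMod n × F), (l.map fun p => ι p.1 p.2).prod = w ∧
    (l.map fun p => ℓ p.2).sum = s})
  obtain ⟨l, hl⟩ := exists_list w
  exact ⟨_, l, hl, rfl⟩

theorem gN_one (ℓ : F → ℕ) : gN ℓ (1 : CP n F) = 0 := by
  have := gN_le ℓ ([] : List (ZMod n × F))
  simpa using this

theorem eq_one_of_gN (hℓ : IsNorm ℓ) {w : CP n F} (h : gN ℓ w = 0) : w = 1 := by
  obtain ⟨l, h1, h2⟩ := gN_mem ℓ w
  rw [h] at h2
  rw [← h1]
  clear h1 h w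
  induction l with
  | nil => rfl
  | cons p l ih =>
    simp only [List.map_cons, List.sum_cons, Nat.add_eq_zero_iff] at h2
    rw [List.map_cons, List.prod_cons, ih h2.2, (hℓ.eq_zero p.2).mp h2.1, map_one, one_mul]

/-! ## star and flat subgroups -/

theorem ι_comm' (i : ZMod n) (g h : F) :
    (ι i g * ι (i - 1) h : CP n F) = ι (i - 1) h * ι i g := by
  have := ι_comm (F := F) (i - 1) h g
  rw [sub_add_cancel] at this
  exact this.symm

theorem comm_Lam (i : ZMod n) (h : F) (u : CP n F) (hu : u ∈ Lam (F := F) i) :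
    ι i h * u = u * ι i h := by
  have h1 : Lam (F := F) i ≤ Subgroup.centralizer {(ι i h : CP n F)} := by
    unfold Lam
    rw [sup_le_iff]
    constructor
    · rintro _ ⟨g, rfl⟩
      rw [Subgroup.mem_centralizer_singleton_iff]
      exact (ι_comm' i h g).symm
    · rintro _ ⟨g, rfl⟩
      rw [Subgroup.mem_centralizer_singleton_iff]
      exact (ι_comm i h g).symm
  have := h1 hu
  rw [Subgroup.mem_centralizer_singleton_iff] at this
  exact this.symm

theorem mem_St (i : ZMod n) (w : CP n F) :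
    w ∈ St (F := F) i ↔ ∃ (h : F), ∃ u ∈ Lam (F := F) i, w = ι i h * u := by
  have comm : ∀ (h : F) (u : Lam (n := n) (F := F) i), Commute (ι i h) ((Lam i).subtype u) :=
    fun h u => comm_Lam i h u.1 u.2
  have e := MonoidHom.noncommCoprod_range (ι i : F →* CP n F) (Lam (F := F) i).subtype comm
  rw [Subgroup.range_subtype] at e
  unfold St
  rw [← e, MonoidHom.mem_range]
  constructor
  · rintro ⟨⟨h, u⟩, rfl⟩
    exact ⟨h, u.1, u.2, rfl⟩
  · rintro ⟨h, u, hu, rfl⟩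
    exact ⟨(h, ⟨u, hu⟩), rfl⟩

theorem mem_Fl (i : ZMod n) (w : CP n F) :
    w ∈ Fl (F := F) i ↔ ∃ a b : F, w = ι i a * ι (i + 1) b := by
  have comm : ∀ (a b : F), Commute (ι i a : CP n F) (ι (i + 1) b) :=
    fun a b => ι_comm i a b
  have e := MonoidHom.noncommCoprod_range (ι i : F →* CP n F) (ι (i + 1)) comm
  unfold Fl
  rw [← e, MonoidHom.mem_range]
  constructor
  · rintro ⟨⟨a, b⟩, rfl⟩
    exact ⟨a, b, rfl⟩
  · rintro ⟨a, b, rfl⟩
    exact ⟨(a, b), rfl⟩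

theorem ι_mem_St (i : ZMod n) (h : F) : (ι i h : CP n F) ∈ St (F := F) i :=
  Subgroup.mem_sup_left ⟨h, rfl⟩
theorem Lam_le_St (i : ZMod n) : Lam (F := F) i ≤ St i := le_sup_right
theorem ι_succ_mem (i : ZMod n) (h : F) : (ι (i + 1) h : CP n F) ∈ Lam (F := F) i :=
  Subgroup.mem_sup_right ⟨h, rfl⟩
theorem ι_pred_mem (i : ZMod n) (h : F) : (ι (i - 1) h : CP n F) ∈ Lam (F := F) i :=
  Subgroup.mem_sup_left ⟨h, rfl⟩
theorem ι_mem_succ (i : ZMod n) (h : F) : (ι i h : CP n F) ∈ Lam (F := F) (i + 1) := by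
  have := ι_pred_mem (F := F) (i + 1) h
  rwa [add_sub_cancel_right] at this

theorem kill_Lam {i j : ZMod n} (h1 : j ≠ i - 1) (h2 : j ≠ i + 1) {u : CP n F}
    (hu : u ∈ Lam (F := F) i) : kill j u = u := by
  have h : Lam (F := F) i ≤ MonoidHom.eqLocus (kill j) (MonoidHom.id _) := by
    unfold Lam
    rw [sup_le_iff]
    constructor
    · rintro _ ⟨g, rfl⟩
      exact kill_ι_ne h1.symm g
    · rintro _ ⟨g, rfl⟩
      exact kill_ι_ne h2.symm g
  exact h hu

/-! ## partial norms -/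

section
variable [NeZero n] (P : GP n F ℓ)
include P

theorem m_one (hℓ : IsNorm ℓ) (i : ZMod n) : P.m i 1 = 0 := by
  have := P.m_ι_self i 1
  rwa [map_one, (hℓ.eq_zero 1).mpr rfl] at this

theorem t_one (hℓ : IsNorm ℓ) (i : ZMod n) : P.t i 1 = 0 := by
  have := P.m_eq i 1
  rw [m_one P hℓ] at this
  omega

theorem pr_of_Lam (i : ZMod n) {u : CP n F} (hu : u ∈ Lam (F := F) i) : P.pr i u = 1 := by
  have := P.pr_Lam_mul i u 1 hu
  rwa [mul_one, P.pr_one] at this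

theorem m_Lam (i j : ZMod n) (u : CP n F) (hu : u ∈ Lam (F := F) i) (h1 : j ≠ i - 1)
    (h2 : j ≠ i + 1) : P.m j u = 0 := (P.m_zero_iff j u).mpr (kill_Lam h1 h2 hu)

theorem m_St (i j : ZMod n) (u : CP n F) (hu : u ∈ St (F := F) i) (h1 : j ≠ i - 1)
    (h2 : j ≠ i) (h3 : j ≠ i + 1) : P.m j u = 0 := by
  obtain ⟨h, v, hv, rfl⟩ := (mem_St i u).mp hu
  rw [P.m_mul_zero j _ _ (P.m_ι_ne j i h h2.symm)]
  exact m_Lam P i j v hv h1 h3

theorem t_St (hℓ : IsNorm ℓ) (i : ZMod n) (u : CP n F) (hu : u ∈ St (F := F) i) :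
    P.t i u = 0 := by
  obtain ⟨h, v, hv, rfl⟩ := (mem_St i u).mp hu
  rw [P.t_ι_mul]
  have := P.t_Lam_mul i v 1 hv
  rwa [mul_one, t_one P hℓ] at this

theorem m_Lam_self (hn : 5 ≤ n) (i : ZMod n) (u : CP n F) (hu : u ∈ Lam (F := F) i) :
    P.m i u = 0 := by
  apply m_Lam P i i u hu
  · intro h
    apply one_ne hn
    have : (1 : ZMod n) = i - (i - 1) := by ring
    rw [this, ← h, sub_self]
  · intro h
    apply one_ne hn
    have : (1 : ZMod n) = (i + 1) - i := by ring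
    rw [this, ← h, sub_self]

theorem is_norm (hℓ : IsNorm ℓ) : IsNorm (gN ℓ : CP n F → ℕ) where
  eq_zero := fun w => ⟨eq_one_of_gN hℓ, fun h => by rw [h, gN_one]⟩
  inv := fun w => by
    rw [P.N_eq, P.N_eq]
    exact Finset.sum_congr rfl fun i _ => P.m_inv i w
  mul_le := fun w w' => by
    rw [P.N_eq, P.N_eq, P.N_eq, ← Finset.sum_add_distrib]
    exact Finset.sum_le_sum fun i _ => P.m_mul i w w'

theorem gN_ι (i : ZMod n) (h : F) : gN ℓ (ι i h : CP n F) = ℓ h := by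
  rw [P.N_eq, Finset.sum_eq_single i (fun j _ hj => P.m_ι_ne j i h hj.symm)
    (fun h => absurd (Finset.mem_univ i) h), P.m_ι_self]

theorem pr_lip (hℓ : IsNorm ℓ) (i : ZMod n) (a b : CP n F) :
    ℓ ((P.pr i a)⁻¹ * P.pr i b) ≤ P.m i (a⁻¹ * b) := by
  by_cases h : P.pr i a = P.pr i b
  · rw [h, inv_mul_cancel, (hℓ.eq_zero 1).mpr rfl]; omega
  · rw [P.sep i a b h]; omega

theorem gN_prod (hn : 5 ≤ n) (i : ZMod n) (h : F) (u : CP n F) (hu : u ∈ Lam (F := F) i) :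
    gN ℓ (ι i h * u) = ℓ h + gN ℓ u := by
  rw [P.N_eq, P.N_eq, ← Finset.add_sum_erase _ _ (Finset.mem_univ i),
    ← Finset.add_sum_erase (Finset.univ : Finset (ZMod n)) (fun j => P.m j u) (Finset.mem_univ i)]
  have h1 : P.m i (ι i h * u) = ℓ h := by
    rw [comm_Lam i h u hu, P.m_mul_zero i _ _ (m_Lam_self P hn i u hu), P.m_ι_self]
  have h2 : P.m i u = 0 := m_Lam_self P hn i u hu
  have h3 : ∑ j ∈ Finset.univ.erase i, P.m j (ι i h * u) = ∑ j ∈ Finset.univ.erase i, P.m j u := by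
    apply Finset.sum_congr rfl
    intro j hj
    exact P.m_mul_zero j _ _ (P.m_ι_ne j i h (Finset.ne_of_mem_erase hj).symm)
  rw [h1, h2, h3, zero_add]

theorem Fl_eq (hn : 5 ≤ n) (i : ZMod n) (w : CP n F) :
    (w ∈ St (F := F) i ∧ w ∈ St (F := F) (i + 1)) ↔ w ∈ Fl (F := F) i := by
  constructor
  · rintro ⟨h1, h2⟩
    obtain ⟨h, u, hu, rfl⟩ := (mem_St i w).mp h1
    have hu2 : u ∈ St (F := F) (i + 1) := by
      have := mul_mem (inv_mem (Lam_le_St _ (ι_mem_succ i h))) h2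
      rwa [inv_mul_cancel_left] at this
    have hm : P.m (i - 1) u = 0 := by
      apply m_St P (i + 1) (i - 1) u hu2
      · intro h
        apply one_ne hn
        have : (1 : ZMod n) = (i + 1 - 1) - (i - 1) := by ring
        rw [this, ← h, sub_self]
      · intro h
        apply two_ne hn
        have : (2 : ZMod n) = (i + 1) - (i - 1) := by ring
        rw [this, ← h, sub_self]
      · intro h
        apply three_ne hn
        have : (3 : ZMod n) = (i + 1 + 1) - (i - 1) := by ring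
        rw [this, ← h, sub_self]
    rw [P.m_zero_iff] at hm
    have hk : (Lam (F := F) i).map (kill (i - 1)) ≤ (ι (i + 1)).range := by
      unfold Lam
      rw [Subgroup.map_sup, sup_le_iff]
      constructor
      · rintro _ ⟨_, ⟨g, rfl⟩, rfl⟩
        rw [kill_ι_self]
        exact one_mem _
      · rintro _ ⟨_, ⟨g, rfl⟩, rfl⟩
        rw [kill_ι_ne]
        · exact ⟨g, rfl⟩
        · intro h
          apply two_ne hn
          have : (2 : ZMod n) = (i + 1) - (i - 1) := by ring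
          rw [this, h, sub_self]
    obtain ⟨b, hb⟩ := hk ⟨u, hu, hm⟩
    rw [mem_Fl]
    exact ⟨h, b, by rw [hb]⟩
  · intro h
    obtain ⟨a, b, rfl⟩ := (mem_Fl i w).mp h
    exact ⟨mul_mem (ι_mem_St i a) (Lam_le_St _ (ι_succ_mem i b)),
      mul_mem (Lam_le_St _ (ι_mem_succ i a)) (ι_mem_St _ b)⟩

theorem lemA (hn : 5 ≤ n) (i : ZMod n) (w : CP n F)
    (h1 : ∃ a ∈ St (F := F) i, ∃ b ∈ St (F := F) (i + 1), w = a * b)
    (h2 : ∃ a ∈ St (F := F) i, ∃ b ∈ St (F := F) (i - 1), w = a * b) : w ∈ St (F := F) i := by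
  obtain ⟨a, ha, b, hb, rfl⟩ := h1
  obtain ⟨a', ha', b', hb', h2⟩ := h2
  have n1 : i + 2 ≠ i - 1 := by
    intro h
    apply three_ne hn
    have : (3 : ZMod n) = (i + 2) - (i - 1) := by ring
    rw [this, h, sub_self]
  have n2 : i + 2 ≠ i := by
    intro h
    apply two_ne hn
    have : (2 : ZMod n) = (i + 2) - i := by ring
    rw [this, h, sub_self]
  have n3 : i + 2 ≠ i + 1 := by
    intro h
    apply one_ne hn
    have : (1 : ZMod n) = (i + 2) - (i + 1) := by ring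
    rw [this, h, sub_self]
  have n4 : i + 2 ≠ i - 1 - 1 := by
    intro h
    apply four_ne hn
    have : (4 : ZMod n) = (i + 2) - (i - 1 - 1) := by ring
    rw [this, h, sub_self]
  have m1 : P.m (i + 2) a = 0 := m_St P i (i + 2) a ha n1 n2 n3
  have m2 : P.m (i + 2) a' = 0 := m_St P i (i + 2) a' ha' n1 n2 n3
  have m3 : P.m (i + 2) b' = 0 := m_St P (i - 1) (i + 2) b' hb' n4 n1
    (by rw [sub_add_cancel]; exact n2)
  have m4 : P.m (i + 2) (a * b) = 0 := by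
    rw [h2, P.m_mul_zero _ _ _ m2]; exact m3
  have m5 : P.m (i + 2) b = 0 := by
    have e : b = a⁻¹ * (a * b) := by group
    rw [e, P.m_mul_zero _ _ _ (by rw [P.m_inv]; exact m1)]
    exact m4
  rw [P.m_zero_iff] at m5
  obtain ⟨h, u, hu, rfl⟩ := (mem_St (i + 1) b).mp hb
  have hk : (Lam (F := F) (i + 1)).map (kill (i + 2)) ≤ (ι i).range := by
    unfold Lam
    rw [Subgroup.map_sup, sup_le_iff]
    constructor
    · rintro _ ⟨_, ⟨g, rfl⟩, rfl⟩
      rw [add_sub_cancel_right, kill_ι_ne n2.symm]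
      exact ⟨g, rfl⟩
    · rintro _ ⟨_, ⟨g, rfl⟩, rfl⟩
      have : (i + 1 + 1 : ZMod n) = i + 2 := by ring
      rw [this, kill_ι_self]
      exact one_mem _
  obtain ⟨c, hc⟩ := hk ⟨u, hu, rfl⟩
  rw [map_mul, kill_ι_ne n3.symm, ← hc] at m5
  rw [← m5]
  exact mul_mem ha (mul_mem (Lam_le_St _ (ι_succ_mem i h)) (ι_mem_St i c))

end

/-! ## tree-walls -/

theorem tw_eq (i j : ZMod n) (y z : CP n F) :
    tw i y = tw j z ↔ i = j ∧ y⁻¹ * z ∈ St (F := F) i := by
  unfold tw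
  constructor
  · intro h
    have h1 : i = j := congrArg Sigma.fst h
    subst h1
    have h2 := eq_of_heq (Sigma.mk.inj h).2
    exact ⟨rfl, QuotientGroup.eq.mp h2⟩
  · rintro ⟨rfl, h⟩
    rw [QuotientGroup.eq.mpr h]

theorem has_iff (J : TW n F) (w : CP n F) : J.has w ↔ J.2.out⁻¹ * w ∈ St (F := F) J.1 := by
  obtain ⟨i, q⟩ := J
  have hq : (⟨i, q⟩ : TW n F) = tw i q.out := by
    unfold tw
    rw [QuotientGroup.out_eq']
  unfold TW.has
  constructor
  · intro h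
    have h2 : tw i w = tw i q.out := h.trans hq
    have h3 := ((tw_eq i i w q.out).mp h2).2
    have := inv_mem h3
    rwa [mul_inv_rev, inv_inv] at this
  · intro h
    show tw i w = _
    rw [hq, tw_eq]
    refine ⟨rfl, ?_⟩
    have := inv_mem h
    rwa [mul_inv_rev, inv_inv] at this

theorem has_tw (i : ZMod n) (y w : CP n F) : (tw i y).has w ↔ y⁻¹ * w ∈ St (F := F) i := by
  unfold TW.has
  show tw i w = tw i y ↔ _
  rw [tw_eq]
  constructor
  · rintro ⟨-, h⟩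
    have := inv_mem h
    rwa [mul_inv_rev, inv_inv] at this
  · intro h
    have := inv_mem h
    rw [mul_inv_rev, inv_inv] at this
    exact ⟨rfl, this⟩

theorem has_mul {J : TW n F} {w g : CP n F} (hw : J.has w) (hg : g ∈ St (F := F) J.1) :
    J.has (w * g) := by
  rw [has_iff] at hw ⊢
  rw [← mul_assoc]
  exact mul_mem hw hg

theorem has_of_has {J : TW n F} {w w' : CP n F} (hw : J.has w) (hw' : J.has w') :
    w⁻¹ * w' ∈ St (F := F) J.1 := by
  rw [has_iff] at hw hw'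
  have := mul_mem (inv_mem hw) hw'
  rw [mul_inv_rev, inv_inv, mul_assoc, mul_inv_cancel_left] at this
  exact this

theorem out_tw (i : ZMod n) (y : CP n F) :
    ∃ g ∈ St (F := F) i, (tw i y).2.out = y * g := by
  have h : (tw i y).has (tw i y).2.out := by
    rw [has_iff, inv_mul_cancel]
    exact one_mem _
  rw [has_tw] at h
  exact ⟨_, h, by group⟩

theorem crs_ne (hn : 5 ≤ n) (J K : TW n F) (h : Crs J K) : J.1 ≠ K.1 := by
  intro h1
  rcases h.1 with h2 | h2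
  · rw [h1] at h2
    exact one_ne hn (left_eq_add.mp h2)
  · rw [h1] at h2
    exact one_ne hn (left_eq_add.mp h2)

theorem tri (hn : 5 ≤ n) {x y z : ZMod n} (h1 : x = y + 1 ∨ y = x + 1) (h2 : y = z + 1 ∨ z = y + 1)
    (h3 : x = z + 1 ∨ z = x + 1) : False := by
  have e1 := one_ne (n := n) hn
  have e3 := three_ne (n := n) hn
  rcases h1 with a | a <;> rcases h2 with b | b <;> rcases h3 with c | c
  · exact e1 (by linear_combination c - a - b)
  · exact e3 (by linear_combination -(a + b + c))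
  · exact e1 (by linear_combination a - b - c)
  · exact e1 (by linear_combination b - a - c)
  · exact e1 (by linear_combination b - a - c)
  · exact e1 (by linear_combination a - b - c)
  · exact e3 (by linear_combination -(a + b + c))
  · exact e1 (by linear_combination c - a - b)

theorem no_triangle (hn : 5 ≤ n) (J K K' : TW n F) (h1 : Crs J K) (h2 : Crs K K')
    (h3 : Crs J K') : False := tri hn h1.1 h2.1 h3.1

theorem crs_flat (J K : TW n F) (h : Crs J K) : ∃ i y, (J = tw i y ∧ K = tw (i + 1) y) ∨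
    (K = tw i y ∧ J = tw (i + 1) y) := by
  obtain ⟨h1, w, hJ, hK⟩ := h
  unfold TW.has at hJ hK
  rcases h1 with h1 | h1
  · exact ⟨K.1, w, Or.inr ⟨hK.symm, by rw [← h1]; exact hJ.symm⟩⟩
  · exact ⟨J.1, w, Or.inl ⟨hJ.symm, by rw [← h1]; exact hK.symm⟩⟩

theorem crs_symm {J K : TW n F} (h : Crs J K) : Crs K J :=
  ⟨h.1.symm, h.2.imp fun _ h => ⟨h.2, h.1⟩⟩

section
variable [NeZero n] (P : GP n F ℓ)
include P

theorem pr_St (i : ZMod n) {g : CP n F} (hg : g ∈ St (F := F) i) :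
    ∃ h : F, P.pr i g = h ∧ (∀ x, P.pr i (g * x) = h * P.pr i x) ∧
      (∀ x, P.t i (g * x) = P.t i x) ∧ (∀ x, P.pr i (g⁻¹ * x) = h⁻¹ * P.pr i x) ∧
      (∀ x, P.t i (g⁻¹ * x) = P.t i x) ∧ ∀ s, P.pr i (g * ι i s) = h * s := by
  obtain ⟨h, u, hu, rfl⟩ := (mem_St i g).mp hg
  refine ⟨h, ?_, ?_, ?_, ?_, ?_, ?_⟩
  · rw [P.pr_ι_mul, pr_of_Lam P i hu, mul_one]
  · intro x
    rw [mul_assoc, P.pr_ι_mul, P.pr_Lam_mul i u x hu]
  · intro x
    rw [mul_assoc, P.t_ι_mul, P.t_Lam_mul i u x hu]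
  · intro x
    rw [mul_inv_rev, mul_assoc, P.pr_Lam_mul i _ _ (inv_mem hu), ← map_inv, P.pr_ι_mul]
  · intro x
    rw [mul_inv_rev, mul_assoc, P.t_Lam_mul i _ _ (inv_mem hu), ← map_inv, P.t_ι_mul]
  · intro s
    rw [mul_assoc, P.pr_ι_mul, P.pr_Lam_mul i u _ hu]
    have := P.pr_ι_mul i s 1
    rw [mul_one, P.pr_one, mul_one] at this
    rw [this]

theorem pi_step (J : TW n F) (w : CP n F) (j : ZMod n) (s : F)
    (h : J.pi P (w * ι j s) ≠ J.pi P w) : j = J.1 ∧ J.has w := by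
  unfold TW.pi at h
  rw [← mul_assoc] at h
  by_cases hj : j = J.1
  · refine ⟨hj, ?_⟩
    rw [has_iff]
    apply P.pr_mul_self J.1 _ s
    rw [hj] at h
    exact h
  · exact absurd (P.pr_mul_ne J.1 j _ s hj) h

theorem pi_in (J : TW n F) (w : CP n F) (s : F) (h : J.has w) :
    J.pi P (w * ι J.1 s) = J.pi P w * s := by
  rw [has_iff] at h
  obtain ⟨g, h1, -, -, -, -, h2⟩ := pr_St P J.1 h
  unfold TW.pi
  rw [← mul_assoc, h2, h1]

theorem pi_lip (hℓ : IsNorm ℓ) (J : TW n F) (a b : CP n F) :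
    ℓ ((J.pi P a)⁻¹ * J.pi P b) ≤ P.m J.1 (a⁻¹ * b) := by
  have := pr_lip P hℓ J.1 (J.2.out⁻¹ * a) (J.2.out⁻¹ * b)
  rwa [mul_inv_rev, inv_inv, mul_assoc, mul_inv_cancel_left] at this

theorem pi_tw (i : ZMod n) (y w w' : CP n F) : (P.pr i (y⁻¹ * w))⁻¹ * P.pr i (y⁻¹ * w') =
    ((tw i y).pi P w)⁻¹ * (tw i y).pi P w' := by
  obtain ⟨g, hg, hout⟩ := out_tw i y
  obtain ⟨h, -, -, -, h1, -, -⟩ := pr_St P i hg
  unfold TW.pi
  rw [hout]
  show _ = (P.pr i ((y * g)⁻¹ * w))⁻¹ * P.pr i ((y * g)⁻¹ * w')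
  rw [mul_inv_rev, mul_assoc, mul_assoc, h1, h1]
  group

theorem dep_tw (i : ZMod n) (y w : CP n F) : (tw i y).dep P w = P.t i (y⁻¹ * w) := by
  obtain ⟨g, hg, hout⟩ := out_tw i y
  obtain ⟨h, -, -, -, -, h1, -⟩ := pr_St P i hg
  unfold TW.dep
  rw [hout]
  show P.t i ((y * g)⁻¹ * w) = _
  rw [mul_inv_rev, mul_assoc, h1]

theorem pi_const (J K : TW n F) (a b : CP n F) (hJK : J ≠ K) (hc : ¬ Crs J K) (ha : K.has a)
    (hb : K.has b) : J.pi P a = J.pi P b := by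
  let S : Subgroup (CP n F) :=
    { carrier := {g | g ∈ St (F := F) K.1 ∧ ∀ w, K.has w → J.pi P (w * g) = J.pi P w}
      one_mem' := ⟨one_mem _, fun w _ => by rw [mul_one]⟩
      mul_mem' := by
        rintro g g' ⟨h1, h2⟩ ⟨h3, h4⟩
        refine ⟨mul_mem h1 h3, fun w hw => ?_⟩
        rw [← mul_assoc, h4 _ (has_mul hw h1), h2 w hw]
      inv_mem' := by
        rintro g ⟨h1, h2⟩
        refine ⟨inv_mem h1, fun w hw => ?_⟩
        have := h2 (w * g⁻¹) (has_mul hw (inv_mem h1))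
        rw [inv_mul_cancel_right] at this
        exact this.symm }
  have key : ∀ j : ZMod n, (j = K.1 ∨ K.1 = j + 1 ∨ j = K.1 + 1) → (ι j).range ≤ S := by
    rintro j hj _ ⟨s, rfl⟩
    refine ⟨?_, fun w hw => ?_⟩
    · rcases hj with rfl | hj | hj
      · exact ι_mem_St _ s
      · rw [hj]
        exact Lam_le_St _ (ι_mem_succ j s)
      · rw [hj]
        exact Lam_le_St _ (ι_succ_mem _ s)
    · by_contra h
      obtain ⟨h1, h2⟩ := pi_step P J w j s h
      rcases hj with hj | hj | hj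
      · apply hJK
        unfold TW.has at h2 hw
        rw [← h2, ← hw, ← h1, hj]
      · apply hc
        exact ⟨Or.inr (by rw [← h1]; exact hj), w, h2, hw⟩
      · apply hc
        exact ⟨Or.inl (by rw [← h1]; exact hj), w, h2, hw⟩
  have hSt : St (F := F) K.1 ≤ S := by
    unfold St Lam
    refine sup_le (key _ (Or.inl rfl)) (sup_le (key _ (Or.inr (Or.inl ?_)))
      (key _ (Or.inr (Or.inr rfl))))
    rw [sub_add_cancel]
  have := (hSt (has_of_has ha hb)).2 a ha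
  rw [mul_inv_cancel_left] at this
  exact this.symm

theorem F3 (J K : TW n F) (a b : CP n F) (hJK : J ≠ K) (hc : ¬ Crs J K) (ha : J.has a)
    (hb : K.has b) (w : CP n F) : J.pi P w = J.pi P b ∨ K.pi P w = K.pi P a := by
  have hc' : ¬ Crs K J := fun h => hc (crs_symm h)
  have key : ∀ g, J.pi P (b * g) = J.pi P b ∨ K.pi P (b * g) = K.pi P a := by
    intro g
    induction g using CP.induction_right with
    | h1 => left; rw [mul_one]
    | hs g j s ih =>
      rw [← mul_assoc]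
      by_cases h1 : J.pi P (b * g * ι j s) = J.pi P (b * g)
      · by_cases h2 : K.pi P (b * g * ι j s) = K.pi P (b * g)
        · rw [h1, h2]; exact ih
        · left
          obtain ⟨h3, h4⟩ := pi_step P K _ j s h2
          apply pi_const P J K _ _ hJK hc _ hb
          apply has_mul h4
          rw [h3]
          exact ι_mem_St _ s
      · right
        obtain ⟨h3, h4⟩ := pi_step P J _ j s h1
        apply pi_const P K J _ _ hJK.symm hc' _ ha
        apply has_mul h4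
        rw [h3]
        exact ι_mem_St _ s
  have := key (b⁻¹ * w)
  rwa [mul_inv_cancel_left] at this

theorem pi_flat (J : TW n F) (i : ZMod n) (y u : CP n F) (h1 : J ≠ tw i y)
    (h2 : J ≠ tw (i + 1) y) (hu : u ∈ Fl (F := F) i) : J.pi P (y * u) = J.pi P y := by
  obtain ⟨a, b, rfl⟩ := (mem_Fl i u).mp hu
  rw [← mul_assoc]
  have e1 : J.pi P (y * ι i a) = J.pi P y := by
    by_contra h
    obtain ⟨h3, h4⟩ := pi_step P J _ _ _ h
    apply h1
    rw [h3]
    exact h4.symm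
  rw [← e1]
  by_contra h
  obtain ⟨h3, h4⟩ := pi_step P J _ _ _ h
  apply h2
  have h5 : J.has y := by
    have h6 : (ι i a : CP n F) ∈ St (F := F) J.1 := by
      rw [← h3]
      exact Lam_le_St _ (ι_mem_succ i a)
    have := has_mul h4 (inv_mem h6)
    rwa [mul_inv_cancel_right] at this
  rw [h3]
  exact h5.symm

theorem cross_geo (hℓ : IsNorm ℓ) (J : TW n F) (a b : CP n F) (h : J.pi P a ≠ J.pi P b) :
    ∃ w, J.has w ∧ J.pi P w = J.pi P a ∧
      gN ℓ (a⁻¹ * b) = gN ℓ (a⁻¹ * w) + gN ℓ (w⁻¹ * b) := by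
  have key : ∀ (l : List (ZMod n × F)) (a : CP n F),
      J.pi P a ≠ J.pi P (a * (l.map fun p => ι p.1 p.2).prod) →
      ∃ l₁ l₂, l = l₁ ++ l₂ ∧ J.has (a * (l₁.map fun p => ι p.1 p.2).prod) ∧
        J.pi P (a * (l₁.map fun p => ι p.1 p.2).prod) = J.pi P a := by
    intro l
    induction l with
    | nil =>
      intro a h
      simp at h
    | cons p l ih =>
      intro a h
      by_cases h1 : J.pi P (a * ι p.1 p.2) = J.pi P a
      · rw [List.map_cons, List.prod_cons, ← mul_assoc, ← h1] at h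
        obtain ⟨l₁, l₂, e1, e2, e3⟩ := ih _ h
        refine ⟨p :: l₁, l₂, by rw [e1]; rfl, ?_, ?_⟩
        · rw [List.map_cons, List.prod_cons, ← mul_assoc]; exact e2
        · rw [List.map_cons, List.prod_cons, ← mul_assoc, e3, h1]
      · obtain ⟨-, h2⟩ := pi_step P J a _ _ h1
        exact ⟨[], p :: l, rfl, by simpa using h2, by simp⟩
  obtain ⟨l, hl1, hl2⟩ := gN_mem ℓ (a⁻¹ * b)
  obtain ⟨l₁, l₂, e1, e2, e3⟩ := key l a (by rw [hl1, mul_inv_cancel_left]; exact h)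
  refine ⟨_, e2, e3, ?_⟩
  have hN := is_norm P hℓ
  have f1 := gN_le ℓ l₁
  have f2 := gN_le ℓ l₂
  have e4 : a⁻¹ * (a * (l₁.map fun p => ι p.1 p.2).prod) = (l₁.map fun p => ι p.1 p.2).prod := by
    rw [inv_mul_cancel_left]
  have e5 : (a * (l₁.map fun p => ι p.1 p.2).prod)⁻¹ * b = (l₂.map fun p => ι p.1 p.2).prod := by
    rw [e1, List.map_append, List.prod_append] at hl1
    rw [mul_inv_rev, mul_assoc, ← hl1, inv_mul_cancel_left]
  have f3 := hN.mul_le (a⁻¹ * (a * (l₁.map fun p => ι p.1 p.2).prod))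
    ((a * (l₁.map fun p => ι p.1 p.2).prod)⁻¹ * b)
  have e6 : (a⁻¹ * (a * (l₁.map fun p => ι p.1 p.2).prod)) *
    ((a * (l₁.map fun p => ι p.1 p.2).prod)⁻¹ * b) = a⁻¹ * b := by group
  rw [e6] at f3
  rw [← e4] at f1
  rw [← e5] at f2
  rw [e1, List.map_append, List.sum_append] at hl2
  omega

theorem wall_dist (J : TW n F) (h : F) (w a : CP n F) (hw : w ∈ Wall P J h) :
    P.m J.1 (w⁻¹ * a) = J.dep P a + ℓ (h⁻¹ * J.pi P a) := by
  obtain ⟨h1, h2⟩ := hw
  rw [has_iff] at h1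
  obtain ⟨g, e1, -, -, e2, e3, -⟩ := pr_St P J.1 h1
  have e4 : w⁻¹ * a = (J.2.out⁻¹ * w)⁻¹ * (J.2.out⁻¹ * a) := by group
  unfold TW.pi at h2
  rw [P.m_eq, e4, e2, e3, ← e1, h2, add_comm]
  rfl

theorem m_sep (J : TW n F) (a b : CP n F) (h : J.pi P a ≠ J.pi P b) :
    P.m J.1 (a⁻¹ * b) = J.dep P a + ℓ ((J.pi P a)⁻¹ * J.pi P b) + J.dep P b := by
  have := P.sep J.1 (J.2.out⁻¹ * a) (J.2.out⁻¹ * b) h
  rwa [mul_inv_rev, inv_inv, mul_assoc, mul_inv_cancel_left] at this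

theorem m_le (J : TW n F) (a b : CP n F) :
    P.m J.1 (a⁻¹ * b) ≤ J.dep P a + ℓ ((J.pi P a)⁻¹ * J.pi P b) + J.dep P b := by
  have := P.m_le J.1 (J.2.out⁻¹ * a) (J.2.out⁻¹ * b)
  rwa [mul_inv_rev, inv_inv, mul_assoc, mul_inv_cancel_left] at this

theorem m_decomp (i : ZMod n) (a b : CP n F) : ∃ l : List (TW n F × ℕ),
    P.m i (a⁻¹ * b) = (l.map fun p => p.2).sum ∧
    ∀ (l₁ : List (TW n F × ℕ)) (Jc : TW n F × ℕ) (l₂ : List (TW n F × ℕ)), l = l₁ ++ Jc :: l₂ →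
      Jc.1.1 = i ∧ Jc.1.pi P a ≠ Jc.1.pi P b ∧ Jc.2 = ℓ ((Jc.1.pi P a)⁻¹ * Jc.1.pi P b) ∧
      Jc.1.dep P a = (l₁.map fun p => p.2).sum ∧ Jc.1.dep P b = (l₂.map fun p => p.2).sum := by
  obtain ⟨l, h1, h2⟩ := P.decomp i a b
  refine ⟨l.map fun zs => (tw i zs.1, ℓ zs.2), ?_, ?_⟩
  · rw [h1, List.map_map]
    rfl
  · intro l₁ Jc l₂ hl
    rw [List.map_eq_append_iff] at hl
    obtain ⟨k₁, k₂, hk, hk1, hk2⟩ := hl
    rw [List.map_eq_cons_iff] at hk2
    obtain ⟨zs, k₃, rfl, rfl, rfl⟩ := hk2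
    subst hk1
    obtain ⟨e1, e2, e3, e4, e5⟩ := h2 k₁ zs k₃ hk
    have e6 := pi_tw P i zs.1 a b
    rw [e2, e3, inv_one, one_mul] at e6
    refine ⟨rfl, ?_, ?_, ?_, ?_⟩
    · intro h
      apply e1
      rw [e6]
      show ((tw i zs.1).pi P a)⁻¹ * (tw i zs.1).pi P b = 1
      rw [show (tw i zs.1).pi P a = (tw i zs.1).pi P b from h, inv_mul_cancel]
    · show ℓ zs.2 = ℓ (((tw i zs.1).pi P a)⁻¹ * (tw i zs.1).pi P b)
      rw [← e6]
    · show (tw i zs.1).dep P a = _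
      rw [dep_tw, e4, List.map_map]
      rfl
    · show (tw i zs.1).dep P b = _
      rw [dep_tw, e5, List.map_map]
      rfl

theorem flat_dist (hℓ : IsNorm ℓ) (hn : 5 ≤ n) (i : ZMod n) (y w : CP n F) :
    gN ℓ ((y * ι i (P.pr i (y⁻¹ * w)) * ι (i + 1) (P.pr (i + 1) (y⁻¹ * w)))⁻¹ * w) =
      P.t i (y⁻¹ * w) + P.t (i + 1) (y⁻¹ * w) +
      ∑ k ∈ Finset.univ.filter (fun k => k ≠ i ∧ k ≠ i + 1), P.m k (y⁻¹ * w) := by
  obtain ⟨x, hx⟩ : ∃ x, x = y⁻¹ * w := ⟨_, rfl⟩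
  obtain ⟨a, ha⟩ : ∃ a, a = P.pr i x := ⟨_, rfl⟩
  obtain ⟨b, hb⟩ : ∃ b, b = P.pr (i + 1) x := ⟨_, rfl⟩
  rw [← hx, ← ha, ← hb]
  have hne : i ≠ i + 1 := fun h => one_ne hn (left_eq_add.mp h)
  have e1 : (y * ι i a * ι (i + 1) b)⁻¹ * w = ι (i + 1) b⁻¹ * (ι i a⁻¹ * x) := by
    rw [hx, map_inv, map_inv]; group
  have e2 : (y * ι i a * ι (i + 1) b)⁻¹ * w = ι i a⁻¹ * (ι (i + 1) b⁻¹ * x) := by
    rw [e1, ← mul_assoc, ← ι_comm, mul_assoc]
  have m1 : P.m i ((y * ι i a * ι (i + 1) b)⁻¹ * w) = P.t i x := by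
    rw [e1, P.m_mul_zero i _ _ (P.m_ι_ne i (i + 1) _ hne.symm), P.m_eq, P.pr_ι_mul, P.t_ι_mul,
      ← ha, inv_mul_cancel, (hℓ.eq_zero 1).mpr rfl, zero_add]
  have m2 : P.m (i + 1) ((y * ι i a * ι (i + 1) b)⁻¹ * w) = P.t (i + 1) x := by
    rw [e2, P.m_mul_zero (i + 1) _ _ (P.m_ι_ne (i + 1) i _ hne), P.m_eq, P.pr_ι_mul, P.t_ι_mul,
      ← hb, inv_mul_cancel, (hℓ.eq_zero 1).mpr rfl, zero_add]
  have m3 : ∀ k, k ≠ i → k ≠ i + 1 → P.m k ((y * ι i a * ι (i + 1) b)⁻¹ * w) = P.m k x := by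
    intro k h1 h2
    rw [e1, P.m_mul_zero k _ _ (P.m_ι_ne k (i + 1) _ h2.symm),
      P.m_mul_zero k _ _ (P.m_ι_ne k i _ h1.symm)]
  rw [P.N_eq, ← Finset.add_sum_erase _ _ (Finset.mem_univ i),
    ← Finset.add_sum_erase _ _ (Finset.mem_erase.mpr ⟨hne.symm, Finset.mem_univ (i + 1)⟩), m1, m2,
    add_assoc]
  congr 2
  apply Finset.sum_congr
  · ext k
    simp only [Finset.mem_erase, Finset.mem_univ, and_true, Finset.mem_filter, true_and]
    tauto
  · intro k hk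
    simp only [Finset.mem_filter, Finset.mem_univ, true_and] at hk
    exact m3 k hk.1 hk.2

end

end WLS

open WLS in
theorem mod_WALLS : S_WALLS := by
  intro n _ hn F _ ℓ hℓ P
  exact
    { norm := is_norm P hℓ
      gN_ι := gN_ι P
      pr_lip := pr_lip P hℓ
      m_le_gN := fun i w => by
        rw [P.N_eq]
        exact Finset.single_le_sum (f := fun i => P.m i w) (fun _ _ => Nat.zero_le _)
          (Finset.mem_univ i)
      ι_Lam := comm_Lam
      St_mem := mem_St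
      Fl_mem := mem_Fl
      Fl_eq := Fl_eq P hn
      gN_prod := gN_prod P hn
      m_Lam := m_Lam P
      m_St := m_St P
      t_St := t_St P hℓ
      lemA := lemA P hn
      pi_step := pi_step P
      pi_in := pi_in P
      pi_lip := pi_lip P hℓ
      pi_tw := pi_tw P
      dep_tw := dep_tw P
      dep_has := fun J w h => t_St P hℓ J.1 _ ((has_iff J w).mp h)
      pi_const := pi_const P
      F3 := F3 P
      pi_flat := pi_flat P
      cross_geo := cross_geo P hℓ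
      wall_dist := wall_dist P
      m_sep := m_sep P
      m_le := m_le P
      m_decomp := m_decomp P
      flat_dist := flat_dist P hℓ hn
      crs_ne := crs_ne hn
      no_triangle := no_triangle hn
      crs_flat := crs_flat
      tw_eq := tw_eq }

end CQ
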